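import Pool.Agent.Q213.CpSepB

set_option autoImplicit false

open TopologicalSpace

namespace Pool.Agent.Results.MP_f50f0f_gt.ZeroDimensional

/-- For every zero-dimensional Tychonoff space X: if every closed subspace of C_p(X) is separable
then L_p(X) is perfectly normal. -/
theorem result :
    ∀ (X : Type) [TopologicalSpace X] [T35Space X],
      (∃ b : Set (Set X), IsTopologicalBasis b ∧ ∀ s ∈ b, IsClopen s) →
      (∀ S : Set ↥{f : X → ℝ | Continuous f}, IsClosed S → SeparableSpace ↥S) →
      (NormalSpace ↥(Set.range (fun a : X →₀ ℝ => fun f : C(X, ℝ) => a.sum (fun x r => r * f x))) ∧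
        ∀ s : Set ↥(Set.range (fun a : X →₀ ℝ => fun f : C(X, ℝ) => a.sum (fun x r => r * f x))),
          IsClosed s → IsGδ s) := by
  intro X _ _ hb h
  exact Q213.CpSep.lp_perfect X (fun k => Q213.CpSep.chs_k hb h k)

end Pool.Agent.Results.MP_f50f0f_gt.ZeroDimensional
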